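import Pool.Agent.Work.MP_d1e9a6_pr.Statements

/-!
C2 of MP_d1e9a6_pr: the clique complex of a sparse graph reduces to dimension `≤ k`.
-/

set_option autoImplicit false
set_option linter.unusedSectionVars false

namespace Pool.Agent.Work.MP_d1e9a6_pr

namespace Reduce

variable {V : Type} [DecidableEq V]

/-- a reduction step with `|ρ| ≥ d` -/
def Stp (d : ℕ) (K K' : Set (Finset V)) : Prop :=
  ∃ (ρ : Finset V) (v : V), v ∉ ρ ∧ d ≤ ρ.card ∧ (∀ τ ∈ K, ρ ⊆ τ → insert v τ ∈ K) ∧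
    K' = delStar K ρ

/-- reductions -/
def Rd (d : ℕ) : Set (Finset V) → Set (Finset V) → Prop := Relation.ReflTransGen (Stp d)

/-- reducible to faces of size `≤ d` -/
def Good (d : ℕ) (K : Set (Finset V)) : Prop := ∃ K', Rd d K K' ∧ ∀ s ∈ K', s.card ≤ d

lemma mem_delStar {K : Set (Finset V)} {ρ τ : Finset V} :
    τ ∈ delStar K ρ ↔ τ ∈ K ∧ ¬ ρ ⊆ τ := Iff.rfl

lemma delStar_of_not {K : Set (Finset V)} {ρ : Finset V} (h : ¬ ∃ τ ∈ K, ρ ⊆ τ) :
    delStar K ρ = K := by
  ext τ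
  rw [mem_delStar]
  exact ⟨fun h' => h'.1, fun h' => ⟨h', fun h'' => h ⟨τ, h', h''⟩⟩⟩

lemma isLowerSet_delStar {K : Set (Finset V)} (hK : IsLowerSet K) (ρ : Finset V) :
    IsLowerSet (delStar K ρ) := by
  intro a b hba ha
  exact ⟨hK hba ha.1, fun h => ha.2 (h.trans hba)⟩

lemma Rd_lower {d : ℕ} {K K' : Set (Finset V)} (h : Rd d K K') (hK : IsLowerSet K) :
    IsLowerSet K' := by
  induction h with
  | refl => exact hK
  | tail _ hs ih =>
    obtain ⟨ρ, v, _, _, _, rfl⟩ := hs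
    exact isLowerSet_delStar ih ρ

lemma Rd_subset {d : ℕ} {K K' : Set (Finset V)} (h : Rd d K K') : K' ⊆ K := by
  induction h with
  | refl => exact subset_rfl
  | tail _ hs ih =>
    obtain ⟨ρ, v, _, _, _, rfl⟩ := hs
    exact fun τ hτ => ih hτ.1

/-- faces through `v` are small: forget `v`. -/
lemma Good_rest {d : ℕ} {Y : Set (Finset V)} (v : V) (hY : ∀ s ∈ Y, v ∈ s → s.card ≤ d)
    (h : Good d {s ∈ Y | v ∉ s}) : Good d Y := by
  obtain ⟨K', hK', hc⟩ := h
  have key : ∀ Z, Rd d {s ∈ Y | v ∉ s} Z → ∃ Y', Rd d Y Y' ∧ Y' ⊆ Y ∧ (∀ s ∈ Z, v ∉ s) ∧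
      ∀ s, v ∉ s → (s ∈ Y' ↔ s ∈ Z) := by
    intro Z hZ
    induction hZ with
    | refl =>
      exact ⟨Y, .refl, subset_rfl, fun s hs => hs.2, fun s hs => ⟨fun h => ⟨h, hs⟩, fun h => h.1⟩⟩
    | @tail Z1 Z2 _ hstep ih =>
      obtain ⟨Y1, h1, h2, h3, h4⟩ := ih
      obtain ⟨ρ, w, hw, hρ, hcone, rfl⟩ := hstep
      by_cases hex : ∃ τ ∈ Z1, ρ ⊆ τ
      · obtain ⟨τ, hτ, hρτ⟩ := hex
        have hvρ : v ∉ ρ := fun h => h3 τ hτ (hρτ h)
        have hwv : v ≠ w := fun h =>
          h3 _ (hcone τ hτ hρτ) (by rw [h]; exact Finset.mem_insert_self _ _)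
        refine ⟨delStar Y1 ρ, h1.tail ⟨ρ, w, hw, hρ, ?_, rfl⟩, fun s hs => h2 hs.1,
          fun s hs => h3 s hs.1, fun s hs => ?_⟩
        · intro σ hσ hρσ
          have hvσ : v ∉ σ := by
            intro hv
            have e1 := hY σ (h2 hσ) hv
            have e2 : ρ ⊆ σ.erase v := fun x hx =>
              Finset.mem_erase.2 ⟨fun h => hvρ (h ▸ hx), hρσ hx⟩
            have e3 := Finset.card_le_card e2
            rw [Finset.card_erase_of_mem hv] at e3
            have e4 := Finset.card_pos.2 ⟨v, hv⟩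
            omega
          exact (h4 _ (by simp [hwv, hvσ])).2 (hcone σ ((h4 σ hvσ).1 hσ) hρσ)
        · rw [mem_delStar, mem_delStar, h4 s hs]
      · rw [delStar_of_not hex]
        exact ⟨Y1, h1, h2, h3, h4⟩
  obtain ⟨Y', h1, h2, h3, h4⟩ := key K' hK'
  refine ⟨Y', h1, fun s hs => ?_⟩
  by_cases hv : v ∈ s
  · exact hY s (h2 hs) hv
  · exact hc s ((h4 s hv).1 hs)

/-- the link of a vertex -/
def lk (Y : Set (Finset V)) (v : V) : Set (Finset V) := {s | v ∉ s ∧ insert v s ∈ Y}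

lemma mem_lk {Y : Set (Finset V)} {v : V} {s : Finset V} :
    s ∈ lk Y v ↔ v ∉ s ∧ insert v s ∈ Y := Iff.rfl

lemma Good_link {d : ℕ} {Y : Set (Finset V)} (v : V) (h : Good d (lk Y v)) :
    ∃ Y', Rd (d + 1) Y Y' ∧ (∀ s ∈ Y', v ∈ s → s.card ≤ d + 1) ∧
      ∀ s, v ∉ s → (s ∈ Y' ↔ s ∈ Y) := by
  obtain ⟨K', hK', hc⟩ := h
  have key : ∀ Z, Rd d (lk Y v) Z → ∃ Y', Rd (d + 1) Y Y' ∧ lk Y' v = Z ∧
      ∀ s, v ∉ s → (s ∈ Y' ↔ s ∈ Y) := by
    intro Z hZ
    induction hZ with
    | refl => exact ⟨Y, .refl, rfl, fun s _ => Iff.rfl⟩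
    | @tail Z1 Z2 _ hstep ih =>
      obtain ⟨Y1, h1, h2, h3⟩ := ih
      obtain ⟨ρ, w, hw, hρ, hcone, rfl⟩ := hstep
      subst h2
      by_cases hex : ∃ τ ∈ lk Y1 v, ρ ⊆ τ
      · obtain ⟨τ, hτ, hρτ⟩ := hex
        have hvρ : v ∉ ρ := fun h => hτ.1 (hρτ h)
        have hwv : v ≠ w := fun h =>
          (hcone τ hτ hρτ).1 (by rw [h]; exact Finset.mem_insert_self _ _)
        refine ⟨delStar Y1 (insert v ρ), h1.tail ⟨insert v ρ, w, ?_, ?_, ?_, rfl⟩, ?_, ?_⟩
        · rw [Finset.mem_insert]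
          rintro (h | h)
          · exact hwv h.symm
          · exact hw h
        · rw [Finset.card_insert_of_notMem hvρ]
          omega
        · intro σ hσ hρσ
          have hvσ : v ∈ σ := hρσ (Finset.mem_insert_self _ _)
          have e1 : σ.erase v ∈ lk Y1 v := by
            refine ⟨Finset.notMem_erase _ _, ?_⟩
            rw [Finset.insert_erase hvσ]
            exact hσ
          have e2 : ρ ⊆ σ.erase v := fun x hx =>
            Finset.mem_erase.2 ⟨fun h => hvρ (h ▸ hx), hρσ (Finset.mem_insert_of_mem hx)⟩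
          have e3 := (hcone _ e1 e2).2
          rw [Finset.insert_comm, Finset.insert_erase hvσ] at e3
          exact e3
        · ext s
          rw [mem_lk, mem_delStar, mem_delStar, mem_lk]
          constructor
          · rintro ⟨hs, hs1, hs2⟩
            exact ⟨⟨hs, hs1⟩, fun h => hs2 (Finset.insert_subset_insert v h)⟩
          · rintro ⟨⟨hs, hs1⟩, hs2⟩
            refine ⟨hs, hs1, fun h => hs2 ?_⟩
            intro x hx
            have := h (Finset.mem_insert_of_mem hx)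
            rw [Finset.mem_insert] at this
            rcases this with h' | h'
            · exact absurd (h' ▸ hx) hvρ
            · exact h'
        · intro s hs
          rw [mem_delStar, ← h3 s hs]
          exact ⟨fun h => h.1, fun h => ⟨h, fun h' => hs (h' (Finset.mem_insert_self _ _))⟩⟩
      · rw [delStar_of_not hex]
        exact ⟨Y1, h1, rfl, h3⟩
  obtain ⟨Y', h1, h2, h3⟩ := key K' hK'
  refine ⟨Y', h1, fun s hs hv => ?_, h3⟩
  have e1 : s.erase v ∈ lk Y' v := by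
    refine ⟨Finset.notMem_erase _ _, ?_⟩
    rw [Finset.insert_erase hv]
    exact hs
  rw [h2] at e1
  have e2 := hc _ e1
  rw [Finset.card_erase_of_mem hv] at e2
  omega

lemma Good_vertex {d : ℕ} {Y : Set (Finset V)} (v : V) (h1 : Good d (lk Y v))
    (h2 : Good (d + 1) {s ∈ Y | v ∉ s}) : Good (d + 1) Y := by
  obtain ⟨Y', hY', hc, hs⟩ := Good_link v h1
  have : {s ∈ Y' | v ∉ s} = {s ∈ Y | v ∉ s} := by
    ext s
    constructor
    · rintro ⟨h, h'⟩
      exact ⟨(hs s h').1 h, h'⟩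
    · rintro ⟨h, h'⟩
      exact ⟨(hs s h').2 h, h'⟩
  rw [← this] at h2
  obtain ⟨K', hK', hK''⟩ := Good_rest v hc h2
  exact ⟨K', hY'.trans hK', hK''⟩

lemma Good_cone [Fintype V] {d : ℕ} {Y : Set (Finset V)} (v : V)
    (h : ∀ τ ∈ Y, insert v τ ∈ Y) : Good d Y := by
  classical
  have key : ∀ P : Finset (Finset V), (∀ ρ ∈ P, v ∉ ρ ∧ d ≤ ρ.card) →
      Rd d Y {τ ∈ Y | ∀ ρ ∈ P, ¬ ρ ⊆ τ} := by
    intro P
    induction P using Finset.induction_on with
    | empty =>
      intro _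
      have : {τ ∈ Y | ∀ ρ ∈ (∅ : Finset (Finset V)), ¬ ρ ⊆ τ} = Y := by
        ext τ
        simp
      rw [this]
      exact .refl
    | insert ρ0 P _ ih =>
      intro hP
      refine (ih fun ρ hρ => hP ρ (Finset.mem_insert_of_mem hρ)).tail
        ⟨ρ0, v, (hP ρ0 (Finset.mem_insert_self _ _)).1, (hP ρ0 (Finset.mem_insert_self _ _)).2,
          ?_, ?_⟩
      · rintro τ ⟨hτ, hτ'⟩ _
        refine ⟨h τ hτ, fun ρ hρ hs => hτ' ρ hρ ?_⟩
        have hv := (hP ρ (Finset.mem_insert_of_mem hρ)).1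
        exact (Finset.subset_insert_iff_of_notMem hv).1 hs
      · ext τ
        simp only [delStar, Set.mem_ofPred_eq, Finset.mem_insert, forall_eq_or_imp]
        tauto
  have hk := key (Finset.univ.filter fun ρ => v ∉ ρ ∧ d ≤ ρ.card) (by
    intro ρ hρ
    exact (Finset.mem_filter.1 hρ).2)
  refine ⟨_, hk, ?_⟩
  rintro s ⟨_, hs⟩
  by_contra hlt
  refine hs (s.erase v) (Finset.mem_filter.2 ⟨Finset.mem_univ _, Finset.notMem_erase _ _, ?_⟩)
    (Finset.erase_subset _ _)
  have := Finset.pred_card_le_card_erase (s := s) (a := v)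
  omega

/-- cliques inside `W` -/
def cOn (G : SimpleGraph V) (W : Finset V) : Set (Finset V) :=
  {s | s ⊆ W ∧ G.IsClique (s : Set V)}

lemma mem_cOn {G : SimpleGraph V} {W s : Finset V} :
    s ∈ cOn G W ↔ s ⊆ W ∧ G.IsClique (s : Set V) := Iff.rfl

open Classical in
lemma lk_cOn (G : SimpleGraph V) {W : Finset V} {v : V} (hv : v ∈ W) :
    lk (cOn G W) v = cOn G (W.filter (G.Adj v)) := by
  ext s
  rw [mem_lk, mem_cOn, mem_cOn]
  constructor
  · rintro ⟨hs, h1, h2⟩
    refine ⟨fun x hx => Finset.mem_filter.2 ⟨h1 (Finset.mem_insert_of_mem hx), ?_⟩, ?_⟩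
    · refine h2 (by simp) (by simp [hx]) ?_
      rintro rfl
      exact hs hx
    · exact h2.subset (by simp)
  · rintro ⟨h1, h2⟩
    have hs : v ∉ s := fun h => (G.loopless.irrefl v) (Finset.mem_filter.1 (h1 h)).2
    refine ⟨hs, ?_, ?_⟩
    · intro x hx
      rcases Finset.mem_insert.1 hx with rfl | hx
      · exact hv
      · exact (Finset.mem_filter.1 (h1 hx)).1
    · rw [Finset.coe_insert, SimpleGraph.isClique_insert]
      exact ⟨h2, fun b hb _ => (Finset.mem_filter.1 (h1 hb)).2⟩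

lemma rest_cOn (G : SimpleGraph V) {W : Finset V} {v : V} :
    {s ∈ cOn G W | v ∉ s} = cOn G (W.erase v) := by
  ext s
  constructor
  · rintro ⟨⟨h1, h2⟩, h3⟩
    exact ⟨Finset.subset_erase.2 ⟨h1, h3⟩, h2⟩
  · rintro ⟨h1, h2⟩
    obtain ⟨h3, h4⟩ := Finset.subset_erase.1 h1
    exact ⟨⟨h3, h2⟩, h4⟩

lemma cOn_good [Fintype V] (G : SimpleGraph V) : ∀ (m d : ℕ) (W : Finset V), W.card = m →
    m ≤ 2 * d + 1 → Good d (cOn G W) := by
  classical
  intro m
  induction m using Nat.strong_induction_on with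
  | _ m ih =>
    intro d W hW hm
    by_cases hne : W.Nonempty
    swap
    · rw [Finset.not_nonempty_iff_eq_empty] at hne
      subst hne
      refine ⟨_, .refl, ?_⟩
      rintro s ⟨hs, _⟩
      rw [Finset.subset_empty.1 hs]
      simp
    obtain ⟨v, hv⟩ := hne
    by_cases hc : ∀ u ∈ W, u ≠ v → G.Adj v u
    · refine Good_cone v ?_
      rintro τ ⟨h1, h2⟩
      refine ⟨Finset.insert_subset hv h1, ?_⟩
      rw [Finset.coe_insert, SimpleGraph.isClique_insert]
      exact ⟨h2, fun b hb hne => hc b (h1 hb) hne.symm⟩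
    · push Not at hc
      obtain ⟨u, hu, huv, hnadj⟩ := hc
      have hcard : (W.filter (G.Adj v)).card + 2 ≤ W.card := by
        have h1 : W.filter (G.Adj v) ⊆ (W.erase v).erase u := by
          intro x hx
          obtain ⟨h1, h2⟩ := Finset.mem_filter.1 hx
          refine Finset.mem_erase.2 ⟨?_, Finset.mem_erase.2 ⟨?_, h1⟩⟩
          · rintro rfl
            exact hnadj h2
          · rintro rfl
            exact G.loopless.irrefl x h2
        have h2 := Finset.card_le_card h1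
        rw [Finset.card_erase_of_mem (Finset.mem_erase.2 ⟨huv, hu⟩),
          Finset.card_erase_of_mem hv] at h2
        have h3 : 1 < W.card := Finset.one_lt_card.2 ⟨u, hu, v, hv, huv⟩
        omega
      obtain ⟨d, rfl⟩ : ∃ e, d = e + 1 := ⟨d - 1, by omega⟩
      refine Good_vertex v ?_ ?_
      · rw [lk_cOn G hv]
        exact ih _ (by omega) d _ rfl (by omega)
      · rw [rest_cOn]
        have h4 : (W.erase v).card = m - 1 := by rw [Finset.card_erase_of_mem hv, hW]
        have h5 := Finset.card_pos.2 ⟨v, hv⟩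
        exact ih (m - 1) (by omega) (d + 1) _ h4 (by omega)

open Classical in
lemma cOn_good2 [Fintype V] (G : SimpleGraph V) (k : ℕ) : ∀ (m : ℕ) (U : Finset V), U.card = m →
    (∀ U' ⊆ U, U'.Nonempty → ∃ v ∈ U', (U'.filter (G.Adj v)).card ≤ 2 * k + 1) →
    Good (k + 1) (cOn G U) := by
  intro m
  induction m with
  | zero =>
    intro U hU _
    rw [Finset.card_eq_zero] at hU
    subst hU
    refine ⟨_, .refl, ?_⟩
    rintro s ⟨hs, _⟩
    rw [Finset.subset_empty.1 hs]
    simp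
  | succ m ih =>
    intro U hU h
    obtain ⟨v, hv, hdeg⟩ := h U subset_rfl (Finset.card_pos.1 (by omega))
    refine Good_vertex v ?_ ?_
    · rw [lk_cOn G hv]
      exact cOn_good G _ k _ rfl hdeg
    · rw [rest_cOn]
      refine ih _ (by rw [Finset.card_erase_of_mem hv, hU]; rfl) fun U' hU' => h U' ?_
      exact hU'.trans (Finset.erase_subset _ _)

/-! ## Counting edges -/

/-- the edges inside `U`, as a set -/
def eSet (G : SimpleGraph V) (U : Finset V) : Set (Sym2 V) :=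
  {e | e ∈ G.edgeSet ∧ ∀ v ∈ e, v ∈ U}

lemma eIn_eq [Fintype V] (G : SimpleGraph V) (U : Finset V) : eIn G U = (eSet G U).ncard := by
  unfold eIn
  rw [← Set.ncard_coe_finset]
  congr 1
  ext e
  simp [eSet]

open Classical in
/-- edges inside `insert x W` -/
lemma eIn_insert [Fintype V] (G : SimpleGraph V) {W : Finset V} {x : V} (hx : x ∉ W) :
    eIn G (insert x W) = eIn G W + (W.filter (G.Adj x)).card := by
  rw [eIn_eq, eIn_eq]
  have h1 : eSet G (insert x W) = eSet G W ∪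
      ((W.filter (G.Adj x)).image (fun u => s(x, u)) : Finset (Sym2 V)) := by
    ext e
    induction e using Sym2.ind with
    | _ a b =>
      simp only [eSet, Set.mem_ofPred_eq, SimpleGraph.mem_edgeSet, Set.mem_union, Finset.mem_coe,
        Sym2.mem_iff, forall_eq_or_imp, forall_eq, Finset.mem_image, Finset.mem_filter,
        Finset.mem_insert, Sym2.eq_iff]
      constructor
      · rintro ⟨hab, ha, hb⟩
        rcases ha with rfl | ha
        · rcases hb with rfl | hb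
          · exact absurd hab (G.loopless.irrefl _)
          · exact Or.inr ⟨b, ⟨hb, hab⟩, Or.inl ⟨rfl, rfl⟩⟩
        · rcases hb with rfl | hb
          · exact Or.inr ⟨a, ⟨ha, hab.symm⟩, Or.inr ⟨rfl, rfl⟩⟩
          · exact Or.inl ⟨hab, ha, hb⟩
      · rintro (⟨hab, ha, hb⟩ | ⟨u, ⟨hu, hxu⟩, h | h⟩)
        · exact ⟨hab, Or.inr ha, Or.inr hb⟩
        · obtain ⟨rfl, rfl⟩ := h
          exact ⟨hxu, Or.inl rfl, Or.inr hu⟩
        · obtain ⟨rfl, rfl⟩ := h
          exact ⟨hxu.symm, Or.inr hu, Or.inl rfl⟩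
  rw [h1, Set.ncard_union_eq _ (Set.toFinite _) (Set.toFinite _), Set.ncard_coe_finset,
    Finset.card_image_of_injOn]
  · intro a _ b _ h
    simp only [Sym2.eq_iff, true_and] at h
    rcases h with h | h
    · exact h
    · rw [h.2, h.1]
  · rw [Set.disjoint_left]
    intro e he he'
    obtain ⟨u, _, rfl⟩ := Finset.mem_image.1 (Finset.mem_coe.1 he')
    exact hx (he.2 x (by simp))

open Classical in
/-- handshake lemma inside `U` -/
lemma two_eIn [Fintype V] (G : SimpleGraph V) (U : Finset V) :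
    2 * eIn G U = ∑ v ∈ U, (U.filter (G.Adj v)).card := by
  induction U using Finset.induction_on with
  | empty =>
    have h0 : eSet G ∅ = ∅ := by
      ext e
      simp only [Set.mem_empty_iff_false, iff_false]
      rintro ⟨_, h⟩
      induction e using Sym2.ind with
      | _ a b => exact absurd (h a (by simp)) (Finset.notMem_empty _)
    rw [eIn_eq, h0]
    simp
  | insert x W hx ih =>
    rw [eIn_insert G hx, Finset.sum_insert hx, mul_add, ih]
    have h1 : ((insert x W).filter (G.Adj x)).card = (W.filter (G.Adj x)).card := by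
      rw [Finset.filter_insert, if_neg (G.loopless.irrefl x)]
    have h2 : ∑ v ∈ W, ((insert x W).filter (G.Adj v)).card =
        ∑ v ∈ W, (W.filter (G.Adj v)).card + (W.filter (G.Adj x)).card := by
      rw [Finset.card_filter (G.Adj x) W, ← Finset.sum_add_distrib]
      refine Finset.sum_congr rfl fun v hv => ?_
      rw [Finset.filter_insert]
      by_cases h : G.Adj v x
      · rw [if_pos h, if_pos h.symm, Finset.card_insert_of_notMem]
        exact fun h' => hx (Finset.mem_filter.1 h').1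
      · rw [if_neg h, if_neg fun h' => h h'.symm, add_zero]
    rw [h1, h2]
    ring

open Classical in
/-- a sparse vertex set has a vertex of small degree -/
lemma exists_small [Fintype V] (G : SimpleGraph V) {k : ℕ} {U : Finset V}
    (h : eIn G U < (k + 1) * U.card) : ∃ v ∈ U, (U.filter (G.Adj v)).card ≤ 2 * k + 1 := by
  by_contra hcon
  push Not at hcon
  have h1 : ∑ _v ∈ U, (2 * k + 2) ≤ ∑ v ∈ U, (U.filter (G.Adj v)).card :=
    Finset.sum_le_sum fun v hv => hcon v hv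
  rw [← two_eIn, Finset.sum_const, smul_eq_mul] at h1
  nlinarith

/-- the number of edges inside a clique -/
lemma two_eIn_clique [Fintype V] (G : SimpleGraph V) {W : Finset V}
    (h : G.IsClique (W : Set V)) : 2 * eIn G W = W.card * (W.card - 1) := by
  classical
  rw [two_eIn]
  have : ∀ v ∈ W, (W.filter (G.Adj v)).card = W.card - 1 := by
    intro v hv
    rw [← Finset.card_erase_of_mem hv]
    congr 1
    ext u
    rw [Finset.mem_filter, Finset.mem_erase]
    constructor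
    · rintro ⟨h1, h2⟩
      exact ⟨fun h' => G.loopless.irrefl v (h' ▸ h2), h1⟩
    · rintro ⟨h1, h2⟩
      exact ⟨h2, h hv h2 h1.symm⟩
  rw [Finset.sum_congr rfl this, Finset.sum_const, smul_eq_mul]

/-! ## Components -/

/-- big cliques -/
def Big (G : SimpleGraph V) (k : ℕ) (τ : Finset V) : Prop :=
  G.IsClique (τ : Set V) ∧ k + 2 ≤ τ.card

/-- two big cliques sharing `k + 1` vertices -/
def Rel (G : SimpleGraph V) (k : ℕ) (τ σ : Finset V) : Prop :=
  Big G k τ ∧ Big G k σ ∧ k + 1 ≤ (τ ∩ σ).card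

lemma Rel.symm {G : SimpleGraph V} {k : ℕ} {τ σ : Finset V} (h : Rel G k τ σ) : Rel G k σ τ :=
  ⟨h.2.1, h.1, by rw [Finset.inter_comm]; exact h.2.2⟩

/-- the component of a big clique -/
def Cmp (G : SimpleGraph V) (k : ℕ) (τ : Finset V) : Set (Finset V) :=
  {σ | Relation.ReflTransGen (Rel G k) τ σ}

lemma big_of_cmp {G : SimpleGraph V} {k : ℕ} {τ σ : Finset V} (hτ : Big G k τ)
    (h : σ ∈ Cmp G k τ) : Big G k σ := by
  induction h with
  | refl => exact hτ
  | tail _ h _ => exact h.2.1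

lemma cmp_closed {G : SimpleGraph V} {k : ℕ} {τ σ ρ : Finset V} (h : σ ∈ Cmp G k τ)
    (h' : Rel G k σ ρ) : ρ ∈ Cmp G k τ := Relation.ReflTransGen.tail h h'

/-- the vertices of a component -/
noncomputable def cV [Fintype V] (G : SimpleGraph V) (k : ℕ) (τ : Finset V) : Finset V := by
  classical exact Finset.univ.filter fun v => ∃ σ ∈ Cmp G k τ, v ∈ σ

lemma mem_cV [Fintype V] {G : SimpleGraph V} {k : ℕ} {τ : Finset V} {v : V} :
    v ∈ cV G k τ ↔ ∃ σ ∈ Cmp G k τ, v ∈ σ := by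
  classical
  simp [cV]

/-- growing a vertex set inside a component -/
lemma grow [Fintype V] (G : SimpleGraph V) (k : ℕ) {τ : Finset V} (hτ : Big G k τ) :
    ∀ j, k + 2 ≤ j → j ≤ (cV G k τ).card → ∃ W : Finset V, W.card = j ∧
      (∃ σ ∈ Cmp G k τ, σ ⊆ W) ∧ 2 * ((k + 1) * j) ≤ 2 * eIn G W + (k + 1) * (k + 2) := by
  classical
  intro j hj
  induction j, hj using Nat.le_induction with
  | base =>
    intro _
    obtain ⟨W, hW, hc⟩ := Finset.exists_subset_card_eq hτ.2
    have hcl : G.IsClique (W : Set V) := hτ.1.subset (by exact_mod_cast hW)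
    refine ⟨W, hc, ⟨W, ?_, subset_rfl⟩, ?_⟩
    · refine Relation.ReflTransGen.single ⟨hτ, ⟨hcl, hc.ge⟩, ?_⟩
      rw [Finset.inter_eq_right.2 hW]
      omega
    · rw [two_eIn_clique G hcl, hc]
      have : k + 2 - 1 = k + 1 := rfl
      rw [this]
      nlinarith
  | succ j hj ih =>
    intro hle
    obtain ⟨W, hWj, ⟨σ, hσ, hσW⟩, hE⟩ := ih (by omega)
    -- a clique of the component not inside `W`
    obtain ⟨a, b, ha, hb, hab, haW, hbW⟩ : ∃ a b, a ∈ Cmp G k τ ∧ b ∈ Cmp G k τ ∧ Rel G k a b ∧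
        a ⊆ W ∧ ¬ b ⊆ W := by
      by_contra hcon
      push Not at hcon
      have h1 : ∀ b ∈ Cmp G k τ, Relation.ReflTransGen (Rel G k) σ b := by
        intro b hb
        have hs : Relation.ReflTransGen (Rel G k) σ τ := by
          have : Std.Symm (Rel G k) := ⟨fun _ _ h => Rel.symm h⟩
          exact Relation.ReflTransGen.stdSymm.symm _ _ hσ
        exact hs.trans hb
      have h2 : ∀ b, Relation.ReflTransGen (Rel G k) σ b → b ⊆ W ∧ b ∈ Cmp G k τ := by
        intro b hb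
        induction hb with
        | refl => exact ⟨hσW, hσ⟩
        | tail _ h ih => exact ⟨hcon _ _ ih.2 (cmp_closed ih.2 h) h ih.1, cmp_closed ih.2 h⟩
      have h3 : cV G k τ ⊆ W := by
        intro v hv
        obtain ⟨b, hb, hvb⟩ := mem_cV.1 hv
        exact (h2 b (h1 b hb)).1 hvb
      have := Finset.card_le_card h3
      omega
    obtain ⟨x, hxb, hxW⟩ := Finset.not_subset.1 hbW
    refine ⟨insert x W, by rw [Finset.card_insert_of_notMem hxW, hWj],
      ⟨σ, hσ, hσW.trans (Finset.subset_insert _ _)⟩, ?_⟩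
    rw [eIn_insert G hxW]
    have hdeg : k + 1 ≤ (W.filter (G.Adj x)).card := by
      refine hab.2.2.trans (Finset.card_le_card ?_)
      intro y hy
      obtain ⟨hya, hyb⟩ := Finset.mem_inter.1 hy
      refine Finset.mem_filter.2 ⟨haW hya, hab.2.1.1 hxb hyb ?_⟩
      rintro rfl
      exact hxW (haW hya)
    nlinarith

/-- lifting a local reduction -/
lemma lift_cmp (G : SimpleGraph V) (k : ℕ) {F : Set (Finset V)} (hF : ∀ τ ∈ F, Big G k τ)
    (hF' : ∀ τ ∈ F, ∀ σ, Rel G k τ σ → σ ∈ F) {U : Finset V} (hU : ∀ τ ∈ F, τ ⊆ U)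
    {Y : Set (Finset V)} (hYc : Y ⊆ cliques G) (hYF : F ⊆ Y)
    (hgood : Good (k + 1) (cOn G U)) :
    ∃ Y', Rd (k + 1) Y Y' ∧ (∀ τ ∈ F, τ ∉ Y') ∧
      ∀ τ, Big G k τ → τ ∉ F → (τ ∈ Y' ↔ τ ∈ Y) := by
  obtain ⟨K', hK', hc⟩ := hgood
  have key : ∀ Z, Rd (k + 1) (cOn G U) Z → ∃ Y', Rd (k + 1) Y Y' ∧
      (∀ τ ∈ F, τ ∈ Y' ↔ τ ∈ Z) ∧ ∀ τ, Big G k τ → τ ∉ F → (τ ∈ Y' ↔ τ ∈ Y) := by
    intro Z hZ
    induction hZ with
    | refl =>
      refine ⟨Y, .refl, fun τ hτ => ?_, fun τ _ _ => Iff.rfl⟩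
      exact ⟨fun _ => ⟨hU τ hτ, (hF τ hτ).1⟩, fun _ => hYF hτ⟩
    | @tail Z1 Z2 hZ1 hstep ih =>
      obtain ⟨Y1, h1, h2, h3⟩ := ih
      obtain ⟨ρ, v, hv, hρ, hcone, rfl⟩ := hstep
      have hZ1c : ∀ τ ∈ Z1, G.IsClique (τ : Set V) := fun τ hτ => (Rd_subset hZ1 hτ).2
      have hY1c : ∀ τ ∈ Y1, G.IsClique (τ : Set V) := fun τ hτ => hYc (Rd_subset h1 hτ)
      have hcardρ : (insert v ρ).card = ρ.card + 1 := Finset.card_insert_of_notMem hv
      by_cases hA : insert v ρ ∈ Z1 ∧ insert v ρ ∈ F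
      · obtain ⟨hA1, hA2⟩ := hA
        -- big faces containing `ρ` belong to `F`
        have hin : ∀ τ, Big G k τ → ρ ⊆ τ → τ ∈ F := by
          intro τ hτ hρτ
          refine hF' _ hA2 τ ⟨hF _ hA2, hτ, hρ.trans (Finset.card_le_card ?_)⟩
          intro x hx
          exact Finset.mem_inter.2 ⟨Finset.mem_insert_of_mem hx, hρτ hx⟩
        refine ⟨delStar Y1 ρ, h1.tail ⟨ρ, v, hv, hρ, ?_, rfl⟩, ?_, ?_⟩
        · intro τ hτ hρτ
          by_cases heq : τ = ρ
          · rw [heq]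
            exact (h2 _ hA2).2 hA1
          · have hlt : ρ.card < τ.card :=
              Finset.card_lt_card (Finset.ssubset_iff_subset_ne.2 ⟨hρτ, fun h => heq h.symm⟩)
            have hbig : Big G k τ := ⟨hY1c τ hτ, by omega⟩
            have hτF := hin τ hbig hρτ
            have h4 := hcone τ ((h2 τ hτF).1 hτ) hρτ
            have h5 : Big G k (insert v τ) :=
              ⟨hZ1c _ h4, hbig.2.trans (Finset.card_le_card (Finset.subset_insert _ _))⟩
            exact (h2 _ (hin _ h5 (hρτ.trans (Finset.subset_insert _ _)))).2 h4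
        · intro τ hτ
          rw [mem_delStar, mem_delStar, h2 τ hτ]
        · intro τ hτ hτF
          rw [mem_delStar, ← h3 τ hτ hτF]
          exact ⟨fun h => h.1, fun h => ⟨h, fun h' => hτF (hin τ hτ h')⟩⟩
      · refine ⟨Y1, h1, fun τ hτ => ?_, h3⟩
        rw [h2 τ hτ, mem_delStar]
        refine ⟨fun h => ⟨h, fun hρτ => hA ?_⟩, fun h => h.1⟩
        have h4 := hcone τ h hρτ
        have hlow := Rd_lower hZ1 (K := cOn G U) (by
          intro a b hba ha
          exact ⟨hba.trans ha.1, ha.2.subset (by exact_mod_cast hba)⟩)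
        have h5 : insert v ρ ∈ Z1 := hlow (Finset.insert_subset_insert v hρτ) h4
        refine ⟨h5, hF' τ hτ _ ⟨hF τ hτ, ⟨hZ1c _ h5, by omega⟩, hρ.trans (Finset.card_le_card ?_)⟩⟩
        intro x hx
        exact Finset.mem_inter.2 ⟨hρτ hx, Finset.mem_insert_of_mem hx⟩
  obtain ⟨Y', h1, h2, h3⟩ := key K' hK'
  refine ⟨Y', h1, fun τ hτ hτ' => ?_, h3⟩
  have := hc τ ((h2 τ hτ).1 hτ')
  have := (hF τ hτ).2
  omega

/-- all components -/
lemma reduce_all [Fintype V] (G : SimpleGraph V) (k : ℕ)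
    (hgood : ∀ τ, Big G k τ → Good (k + 1) (cOn G (cV G k τ))) :
    ∀ (m : ℕ) (Y : Set (Finset V)), Y ⊆ cliques G →
      (∀ τ ∈ Y, ∀ σ, Rel G k τ σ → σ ∈ Y) → {τ | Big G k τ ∧ τ ∈ Y}.ncard ≤ m →
      Good (k + 1) Y := by
  intro m
  induction m with
  | zero =>
    intro Y hY _ hc
    refine ⟨Y, .refl, fun s hs => ?_⟩
    have h0 : {τ | Big G k τ ∧ τ ∈ Y} = ∅ := by
      rw [← Set.ncard_eq_zero (Set.toFinite _)]
      omega
    by_contra hlt
    have : s ∈ {τ | Big G k τ ∧ τ ∈ Y} := ⟨⟨hY hs, by omega⟩, hs⟩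
    rw [h0] at this
    exact this
  | succ m ih =>
    intro Y hY hcl hc
    by_cases hex : ∃ τ, Big G k τ ∧ τ ∈ Y
    · obtain ⟨τ, hτ, hτY⟩ := hex
      have hsub : Cmp G k τ ⊆ Y := by
        intro σ hσ
        induction hσ with
        | refl => exact hτY
        | tail _ h ih => exact hcl _ ih _ h
      obtain ⟨Y', h1, h2, h3⟩ := lift_cmp G k (F := Cmp G k τ) (fun σ hσ => big_of_cmp hτ hσ)
        (fun σ hσ ρ hρ => cmp_closed hσ hρ) (U := cV G k τ)
        (fun σ hσ v hv => mem_cV.2 ⟨σ, hσ, hv⟩) hY hsub (hgood τ hτ)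
      have h4 : Good (k + 1) Y' := by
        refine ih Y' ((Rd_subset h1).trans hY) ?_ ?_
        · intro σ hσ ρ hρ
          have e1 : σ ∉ Cmp G k τ := fun h => h2 σ h hσ
          have e2 : ρ ∉ Cmp G k τ := fun h => e1 (cmp_closed h hρ.symm)
          exact (h3 ρ hρ.2.1 e2).2 (hcl σ ((h3 σ hρ.1 e1).1 hσ) ρ hρ)
        · have h5 : {σ | Big G k σ ∧ σ ∈ Y'} ⊂ {σ | Big G k σ ∧ σ ∈ Y} := by
            refine ⟨fun σ hσ => ⟨hσ.1, Rd_subset h1 hσ.2⟩, fun h => ?_⟩
            exact h2 τ Relation.ReflTransGen.refl (h ⟨hτ, hτY⟩).2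
          have h6 := Set.ncard_lt_ncard h5 (Set.toFinite _)
          omega
      obtain ⟨K', hK', hK''⟩ := h4
      exact ⟨K', h1.trans hK', hK''⟩
    · refine ih Y hY hcl ?_
      have h0 : {τ | Big G k τ ∧ τ ∈ Y} = ∅ := by
        ext τ
        simp only [Set.mem_ofPred_eq, Set.mem_empty_iff_false, iff_false]
        exact fun h => hex ⟨τ, h⟩
      rw [h0]
      simp

end Reduce

/-- C2: sparse graphs reduce to dimension `≤ k` -/
theorem stmt_reduce : Stmt_Reduce := by
  classical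
  intro V _ _ G k M hM hsp hden
  have hgood : ∀ τ, Reduce.Big G k τ → Reduce.Good (k + 1) (Reduce.cOn G (Reduce.cV G k τ)) := by
    intro τ hτ
    have hcard : (Reduce.cV G k τ).card < M := by
      by_contra hle
      push Not at hle
      obtain ⟨W, hW, _, hE⟩ := Reduce.grow G k hτ M hM hle
      have := hden W hW
      omega
    refine Reduce.cOn_good2 G k _ _ rfl fun U' hU' hne => ?_
    have h1 := Finset.card_le_card hU'
    obtain ⟨v, hv, h⟩ := Reduce.exists_small G (hsp U' hne (by omega))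
    exact ⟨v, hv, by convert h⟩
  obtain ⟨K', h1, h2⟩ := Reduce.reduce_all G k hgood _ (cliques G) subset_rfl
    (fun τ _ σ h => h.2.1.1) le_rfl
  exact ⟨K', h1, h2⟩

end Pool.Agent.Work.MP_d1e9a6_pr
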