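import Mathlib

/-!
P1 (sphere model) of the topology block of MP_d1e9a6_pr: a characteristic map of the sphere
`{z | ∑ z_t ^ 2 = 2 z_0}` in `ℝ^(k+1)`.
-/

set_option autoImplicit false

noncomputable section

namespace Pool.Agent.Work.MP_d1e9a6_pr.Top

open unitInterval

/-- `y = 2 x - 1`. -/
def thY {k : ℕ} (x : Fin k → I) (i : Fin k) : ℝ := 2 * (x i : ℝ) - 1

/-- `P = ∏ x_i (1 - x_i)`. -/
def thP {k : ℕ} (x : Fin k → I) : ℝ := ∏ i, ((x i : ℝ) * (1 - (x i : ℝ)))

/-- the denominator. -/
def thD {k : ℕ} (x : Fin k → I) : ℝ := thP x ^ 2 + ∑ i, thY x i ^ 2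

/-- `p(y) = ∏ (1 - y_i ^ 2) / 4`. -/
def thp {k : ℕ} (y : Fin k → ℝ) : ℝ := ∏ i, ((1 - y i ^ 2) / 4)

lemma thP_eq {k : ℕ} (x : Fin k → I) : thP x = thp (thY x) := by
  unfold thP thp thY
  refine Finset.prod_congr rfl fun i _ => ?_
  ring

lemma thP_nonneg {k : ℕ} (x : Fin k → I) : 0 ≤ thP x :=
  Finset.prod_nonneg fun i _ => mul_nonneg (x i).2.1 (sub_nonneg.2 (x i).2.2)

lemma thP_eq_zero {k : ℕ} (x : Fin k → I) : thP x = 0 ↔ x ∈ Cube.boundary (Fin k) := by
  unfold thP Cube.boundary
  rw [Finset.prod_eq_zero_iff]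
  simp only [Finset.mem_univ, true_and, mul_eq_zero, Set.mem_setOf_eq]
  refine exists_congr fun i => or_congr ?_ ?_
  · exact ⟨fun h => Subtype.ext h, fun h => by rw [h]; rfl⟩
  · constructor
    · intro h
      exact Subtype.ext (by simpa using (sub_eq_zero.1 h).symm)
    · intro h
      rw [h]
      simp

lemma thD_pos {k : ℕ} (x : Fin k → I) : 0 < thD x := by
  unfold thD
  by_cases h : thP x = 0
  · have hb := (thP_eq_zero x).1 h
    obtain ⟨i, hi⟩ := hb
    have h1 : thY x i ^ 2 = 1 := by
      unfold thY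
      rcases hi with hi | hi <;> rw [hi] <;> norm_num
    have h2 : thY x i ^ 2 ≤ ∑ j, thY x j ^ 2 :=
      Finset.single_le_sum (f := fun j => thY x j ^ 2) (fun j _ => sq_nonneg _) (Finset.mem_univ i)
    have h3 : 0 ≤ thP x ^ 2 := sq_nonneg _
    linarith
  · have h3 : 0 < thP x ^ 2 := by positivity
    have h2 : 0 ≤ ∑ j, thY x j ^ 2 := Finset.sum_nonneg fun j _ => sq_nonneg _
    linarith

/-- The formula of the characteristic map. -/
def thF {k : ℕ} (x : Fin k → I) : Fin (k + 1) → ℝ :=
  Fin.cons (2 * thP x ^ 2 / thD x) fun i => 2 * thP x * thY x i / thD x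

lemma thF_zero {k : ℕ} (x : Fin k → I) : thF x 0 = 2 * thP x ^ 2 / thD x := rfl

lemma thF_succ {k : ℕ} (x : Fin k → I) (i : Fin k) :
    thF x i.succ = 2 * thP x * thY x i / thD x := rfl

lemma thF_continuous {k : ℕ} : Continuous (thF (k := k)) := by
  have hY : ∀ i, Continuous fun x : Fin k → I => thY x i := by
    intro i
    unfold thY
    fun_prop
  have hP : Continuous (thP (k := k)) := by
    unfold thP
    fun_prop
  have hD : Continuous (thD (k := k)) := by
    unfold thD
    exact (hP.pow 2).add (continuous_finset_sum _ fun i _ => (hY i).pow 2)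
  refine continuous_pi fun t => ?_
  refine Fin.cases ?_ (fun i => ?_) t
  · simp only [thF_zero]
    exact ((hP.pow 2).const_mul 2 |> fun h => h.div hD fun x => (thD_pos x).ne')
  · simp only [thF_succ]
    exact (((hP.const_mul 2).mul (hY i)).div hD fun x => (thD_pos x).ne')

lemma thF_sphere {k : ℕ} (x : Fin k → I) : ∑ t, (thF x t) ^ 2 = 2 * thF x 0 := by
  rw [Fin.sum_univ_succ]
  simp only [thF_zero, thF_succ]
  have hD := (thD_pos x).ne'
  have h1 : ∀ i, (2 * thP x * thY x i / thD x) ^ 2 =
      (4 * thP x ^ 2 / thD x ^ 2) * thY x i ^ 2 := by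
    intro i
    field_simp
    ring
  rw [Finset.sum_congr rfl fun i _ => h1 i, ← Finset.mul_sum]
  have h2 : ∑ i, thY x i ^ 2 = thD x - thP x ^ 2 := by unfold thD; ring
  rw [h2]
  field_simp
  ring

lemma thF_eq_zero {k : ℕ} (x : Fin k → I) : thF x = 0 ↔ x ∈ Cube.boundary (Fin k) := by
  rw [← thP_eq_zero]
  constructor
  · intro h
    have h0 : thF x 0 = 0 := by rw [h]; rfl
    rw [thF_zero, div_eq_zero_iff] at h0
    rcases h0 with h0 | h0
    · nlinarith [sq_nonneg (thP x), pow_eq_zero_iff (two_ne_zero) |>.1 (by linarith : thP x ^ 2 = 0)]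
    · exact absurd h0 (thD_pos x).ne'
  · intro h
    funext t
    refine Fin.cases ?_ (fun i => ?_) t
    · rw [thF_zero, h]; simp
    · rw [thF_succ, h]; simp

lemma thp_anti {k : ℕ} {w : Fin k → ℝ} {s t : ℝ} (hs : 0 ≤ s) (hst : s ≤ t)
    (hw : ∀ i, (t * w i) ^ 2 ≤ 1) : thp (fun i => t * w i) ≤ thp (fun i => s * w i) := by
  unfold thp
  refine Finset.prod_le_prod (fun i _ => ?_) fun i _ => ?_
  · have := hw i
    simp only
    linarith
  · have h1 : (s * w i) ^ 2 ≤ (t * w i) ^ 2 := by
      rw [mul_pow, mul_pow]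
      exact mul_le_mul_of_nonneg_right (pow_le_pow_left₀ hs hst 2) (sq_nonneg _)
    simp only
    linarith

lemma thY_sq_le {k : ℕ} (x : Fin k → I) (i : Fin k) : thY x i ^ 2 ≤ 1 := by
  have h0 := (x i).2.1
  have h1 := (x i).2.2
  unfold thY
  nlinarith

lemma thY_of_thF {k : ℕ} (x : Fin k → I) (hx : thP x ≠ 0) (i : Fin k) :
    thY x i = thP x * (thF x i.succ / thF x 0) := by
  have hD := (thD_pos x).ne'
  rw [thF_zero, thF_succ]
  field_simp

lemma thF_inj {k : ℕ} {x x' : Fin k → I} (h : thF x = thF x') (hx : x ∉ Cube.boundary (Fin k)) :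
    x = x' := by
  have hx' : x' ∉ Cube.boundary (Fin k) := by
    rw [← thF_eq_zero, ← h, thF_eq_zero]
    exact hx
  rw [← thP_eq_zero] at hx hx'
  have hy := thY_of_thF x hx
  have hy' := thY_of_thF x' hx'
  rw [h] at hy
  set w : Fin k → ℝ := fun i => thF x' i.succ / thF x' 0 with hw
  have hyw : thY x = fun i => thP x * w i := funext hy
  have hyw' : thY x' = fun i => thP x' * w i := funext hy'
  have e1 : thp (fun i => thP x * w i) = thP x := by rw [← hyw, thP_eq]
  have e2 : thp (fun i => thP x' * w i) = thP x' := by rw [← hyw', thP_eq]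
  have hPP : thP x = thP x' := by
    rcases le_total (thP x) (thP x') with hle | hle
    · have := thp_anti (w := w) (thP_nonneg x) hle
        (fun i => by rw [← hy' i]; exact thY_sq_le x' i)
      rw [e1, e2] at this
      exact le_antisymm hle this
    · have := thp_anti (w := w) (thP_nonneg x') hle
        (fun i => by rw [← hy i]; exact thY_sq_le x i)
      rw [e1, e2] at this
      exact le_antisymm this hle
  funext i
  apply Subtype.ext
  have := hy i
  rw [hPP, ← hy' i] at this
  unfold thY at this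
  linarith

lemma thF_surj {k : ℕ} (hk : 0 < k) (z : Fin (k + 1) → ℝ) (hz : ∑ t, z t ^ 2 = 2 * z 0) :
    ∃ x : Fin k → I, thF x = z := by
  by_cases hz0 : z 0 = 0
  · refine ⟨fun _ => 0, ?_⟩
    have h1 : z = 0 := by
      rw [hz0, mul_zero] at hz
      have := (Finset.sum_eq_zero_iff_of_nonneg (fun i _ => sq_nonneg (z i))).1 hz
      funext t
      exact pow_eq_zero_iff two_ne_zero |>.1 (this t (Finset.mem_univ t))
    rw [h1, thF_eq_zero]
    exact ⟨⟨0, hk⟩, Or.inl rfl⟩
  · have hpos : 0 < z 0 := by
      have h1 : 0 ≤ ∑ t, z t ^ 2 := Finset.sum_nonneg fun t _ => sq_nonneg _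
      rw [hz] at h1
      rcases lt_or_eq_of_le (by linarith : 0 ≤ z 0) with h | h
      · exact h
      · exact absurd h.symm hz0
    set w : Fin k → ℝ := fun i => z i.succ / z 0 with hw
    -- clamp
    let cl : ℝ → ℝ := fun a => max (-1) (min 1 a)
    have hcl : Continuous cl := by
      simp only [cl]
      fun_prop
    have hcl1 : ∀ a, cl a ^ 2 ≤ 1 := by
      intro a
      have h1 : -1 ≤ cl a := le_max_left _ _
      have h2 : cl a ≤ 1 := max_le (by norm_num) (min_le_left _ _)
      nlinarith
    let g : ℝ → ℝ := fun t => thp (fun i => cl (t * w i)) - t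
    have hg : Continuous g := by
      simp only [g]
      refine Continuous.sub ?_ continuous_id
      unfold thp
      exact continuous_finset_prod _ fun i _ => by
        have : Continuous fun t : ℝ => cl (t * w i) := hcl.comp (continuous_id.mul continuous_const)
        exact (continuous_const.sub (this.pow 2)).div_const 4
    have hg0 : 0 < g 0 := by
      simp only [g, zero_mul, thp]
      have : cl 0 = 0 := by simp [cl]
      rw [this]
      simp only [sub_zero]
      refine Finset.prod_pos fun i _ => by norm_num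
    have hg1 : g 1 < 0 := by
      simp only [g]
      have : thp (fun i => cl (1 * w i)) ≤ 1 / 4 := by
        unfold thp
        have h1 : ∏ i : Fin k, ((1 - cl (1 * w i) ^ 2) / 4) ≤ ∏ _i : Fin k, (1 / 4 : ℝ) := by
          refine Finset.prod_le_prod (fun i _ => ?_) fun i _ => ?_
          · have := hcl1 (1 * w i)
            linarith
          · have := sq_nonneg (cl (1 * w i))
            linarith
        refine h1.trans ?_
        rw [Finset.prod_const, Finset.card_univ, Fintype.card_fin]
        calc (1 / 4 : ℝ) ^ k ≤ (1 / 4) ^ 1 := pow_le_pow_of_le_one (by norm_num) (by norm_num) hk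
          _ = 1 / 4 := pow_one _
      linarith
    obtain ⟨t, ht, htg⟩ : ∃ t ∈ Set.Ioo (0 : ℝ) 1, g t = 0 := by
      have := intermediate_value_Ioo' (by norm_num : (0 : ℝ) ≤ 1) hg.continuousOn
      exact this ⟨hg1, hg0⟩
    have htp : thp (fun i => cl (t * w i)) = t := by
      simp only [g] at htg
      linarith
    -- clamp is the identity
    have hid : ∀ i, cl (t * w i) = t * w i ∧ (t * w i) ^ 2 ≤ 1 := by
      intro i
      have hne : (1 - cl (t * w i) ^ 2) / 4 ≠ 0 := by
        intro h0
        have : thp (fun i => cl (t * w i)) = 0 := Finset.prod_eq_zero (Finset.mem_univ i) h0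
        rw [htp] at this
        exact ht.1.ne' this
      have hlt : cl (t * w i) ^ 2 ≠ 1 := by
        intro h
        apply hne
        rw [h]
        norm_num
      have h3 : cl (t * w i) = t * w i := by
        simp only [cl] at hlt ⊢
        rcases le_total (t * w i) (-1) with h | h
        · exfalso
          apply hlt
          rw [min_eq_right (by linarith), max_eq_left h]
          norm_num
        · rcases le_total 1 (t * w i) with h' | h'
          · exfalso
            apply hlt
            rw [min_eq_left h', max_eq_right (by norm_num)]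
            norm_num
          · rw [min_eq_right h', max_eq_right h]
      exact ⟨h3, by rw [← h3]; exact hcl1 _⟩
    have hrange : ∀ i, 0 ≤ (t * w i + 1) / 2 ∧ (t * w i + 1) / 2 ≤ 1 := by
      intro i
      have h1 := (hid i).2
      have h2 : |t * w i| ≤ 1 := by
        rw [← sq_le_one_iff_abs_le_one]
        exact h1
      have := abs_le.1 h2
      constructor <;> linarith
    refine ⟨fun i => ⟨(t * w i + 1) / 2, hrange i⟩, ?_⟩
    set x : Fin k → I := fun i => ⟨(t * w i + 1) / 2, hrange i⟩ with hxdef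
    have hY : thY x = fun i => t * w i := by
      funext i
      simp only [thY, hxdef]
      ring
    have hP : thP x = t := by
      rw [thP_eq, hY]
      rw [← htp]
      congr 1
      funext i
      rw [htp, (hid i).1]
    have hsum : ∑ i, w i ^ 2 = 2 / z 0 - 1 := by
      simp only [hw, div_pow]
      rw [← Finset.sum_div]
      rw [Fin.sum_univ_succ] at hz
      have : ∑ i : Fin k, z i.succ ^ 2 = 2 * z 0 - z 0 ^ 2 := by linarith
      rw [this]
      field_simp
    have hD : thD x = t ^ 2 * (2 / z 0) := by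
      unfold thD
      rw [hP, hY]
      simp only [mul_pow]
      rw [← Finset.mul_sum, hsum]
      ring
    have ht0 : t ≠ 0 := ht.1.ne'
    have hz0' : z 0 ≠ 0 := hz0
    funext s
    refine Fin.cases ?_ (fun i => ?_) s
    · rw [thF_zero, hP, hD]
      field_simp
    · rw [thF_succ, hP, hD, hY]
      simp only [hw]
      field_simp

/-- The characteristic map of the sphere of dimension `k`. -/
theorem exists_theta (k : ℕ) (hk : 0 < k) : ∃ θ : C(Fin k → I, Fin (k + 1) → ℝ),
    (∀ x, ∑ t, (θ x t) ^ 2 = 2 * θ x 0) ∧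
    (∀ x, θ x = 0 ↔ x ∈ Cube.boundary (Fin k)) ∧
    (∀ x x', θ x = θ x' → x ∉ Cube.boundary (Fin k) → x = x') ∧
    (∀ z : Fin (k + 1) → ℝ, ∑ t, z t ^ 2 = 2 * z 0 → ∃ x, θ x = z) :=
  ⟨⟨thF, thF_continuous⟩, thF_sphere, thF_eq_zero, fun _ _ h hx => thF_inj h hx, thF_surj hk⟩

end Pool.Agent.Work.MP_d1e9a6_pr.Top
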