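import Pool.Agent.Work.MP_d1e9a6_pr_helper20.Sphere
import Pool.Agent.Work.MP_d1e9a6_pr_h36.Defs

/-!
P1 (cells of the wedge of spheres) of the topology block of MP_d1e9a6_pr.
-/

set_option autoImplicit false

noncomputable section

namespace Pool.Agent.Work.MP_d1e9a6_pr.Top

open unitInterval

/-- The zero point of the wedge. -/
def wz (N k : ℕ) : wedge N k := ⟨0, Or.inl rfl⟩

/-- The `i`-th cell of the wedge of `N` spheres. -/
def wcell {N k : ℕ} (i : Fin N) (x : Fin k → I) : wedge N k :=
  ⟨fun p => if p.1 = i then thF x p.2 else 0, Or.inr ⟨i, by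
    refine ⟨fun j t hj => by simp [hj], ?_⟩
    simp only [if_true]
    exact thF_sphere x⟩⟩

lemma wcell_apply {N k : ℕ} (i : Fin N) (x : Fin k → I) (j : Fin N) (t : Fin (k + 1)) :
    (wcell i x : Fin N × Fin (k + 1) → ℝ) (j, t) = if j = i then thF x t else 0 := rfl

lemma wcell_continuous {N k : ℕ} (i : Fin N) : Continuous (wcell (k := k) i) := by
  refine Continuous.subtype_mk (continuous_pi fun p => ?_) _
  by_cases h : p.1 = i
  · simp only [h, if_true]
    exact (continuous_apply p.2).comp thF_continuous
  · simp only [h, if_false]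
    exact continuous_const

lemma wcell_eq_zero {N k : ℕ} (i : Fin N) (x : Fin k → I) :
    wcell i x = wz N k ↔ x ∈ Cube.boundary (Fin k) := by
  rw [← thF_eq_zero]
  constructor
  · intro h
    funext t
    have := congrFun (congrArg Subtype.val h) (i, t)
    rw [wcell_apply] at this
    simpa [wz] using this
  · intro h
    refine Subtype.ext (funext fun p => ?_)
    obtain ⟨j, t⟩ := p
    rw [wcell_apply, h]
    simp [wz]

/-- The cells of the wedge of `N` spheres of dimension `k`. -/
theorem wedge_cells (N k : ℕ) (hk : 0 < k) : ∃ c : Fin N → C(Fin k → I, wedge N k),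
    (∀ i x, c i x = ⟨0, Or.inl rfl⟩ ↔ x ∈ Cube.boundary (Fin k)) ∧
    (∀ i j x x', x ∉ Cube.boundary (Fin k) → c i x = c j x' → i = j ∧ x = x') ∧
    (∀ y : wedge N k, (y : Fin N × Fin (k + 1) → ℝ) = 0 ∨ ∃ i x, c i x = y) := by
  refine ⟨fun i => ⟨wcell i, wcell_continuous i⟩, fun i x => wcell_eq_zero i x, ?_, ?_⟩
  · intro i j x x' hx h
    have hx0 : thF x ≠ 0 := fun h0 => hx ((thF_eq_zero x).1 h0)
    have h' : ∀ (a : Fin N) (t : Fin (k + 1)),
        (if a = i then thF x t else 0) = (if a = j then thF x' t else 0) := fun a t =>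
      congrFun (congrArg Subtype.val h) (a, t)
    have hij : i = j := by
      by_contra hne
      apply hx0
      funext t
      have := h' i t
      simpa [hne] using this
    subst hij
    refine ⟨rfl, thF_inj (funext fun t => ?_) hx⟩
    have := h' i t
    simpa using this
  · rintro ⟨y, hy⟩
    rcases hy with hy | ⟨i, hi, hs⟩
    · exact Or.inl hy
    · right
      obtain ⟨x, hx⟩ := thF_surj hk (fun t => y (i, t)) hs
      refine ⟨i, x, Subtype.ext (funext fun p => ?_)⟩
      obtain ⟨j, t⟩ := p
      change (if j = i then thF x t else 0) = y (j, t)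
      by_cases hj : j = i
      · subst hj
        simp [hx]
      · rw [if_neg hj, hi j t hj]

end Pool.Agent.Work.MP_d1e9a6_pr.Top
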